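import Pool.Agent.Helper53.CTR.Goals

/-!
# PROJECT CTR (MP_8b4d68_lc), packet CTR-FI0: the single steps outside of the main loop
-/

namespace Pool.Agent.Helper12.CTR

open Pool.Agent.Helper53.CTR
open Pool.Agent.Helper1.TE (Gad app Ch cif ctab bitc seed wN vN addm NumMach codeB word)
open Pool.Agent.Helper65.LinSpace (dig tab nrec ifz eq01 le01 lt01 capPow)

theorem cif_z {β : Type} (x y : β) : cif 0 x y = x := rfl

theorem cif_n {β : Type} {c : ℕ} (h : c ≠ 0) (x y : β) : cif c x y = y := if_neg h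

section nextM

variable (ok : ℕ → ℕ → ℕ → ℕ → ℕ) (h q b c u W y γ : ℕ)

theorem nextM0 : nextM ok (hdr 0 h q b c u W) y γ =
    cif y rejS (cif (y - 1) (hdr 1 h 0 0 0 0 0) (hdr 0 (h + 1) 0 0 0 0 0)) := rfl

theorem nextM1 : nextM ok (hdr 1 h q b c u W) y γ =
    cif y rejS (cif (y - 1) (hdr 2 h q 0 0 0 0) (hdr 1 h (q + 1) 0 0 0 0)) := rfl

theorem nextM2 : nextM ok (hdr 2 h q b c u W) y γ =
    cif y rejS (cif (y - 1) (hdr 3 h q b 0 0 0) (hdr 2 h q (b + 1) 0 0 0)) := rfl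

theorem nextM3 : nextM ok (hdr 3 h q b c u W) y γ =
    cif y rejS (cif (y - 1)
      (cif (h * q * b * le01 c b * ok h q b c) rejS (hdr 4 h q b c 0 1))
      (hdr 3 h q b (c + 1) 0 0)) := rfl

theorem nextM4 : nextM ok (hdr 4 h q b c u W) y γ =
    cif y rejS (cif (h * q - u) (hdr 5 h q b c 0 1) (hdr 4 h q b c (u + 1) (2 * W))) := rfl

theorem nextM5 : nextM ok (hdr 5 h q b c u W) y γ =
    cif (Et h q b c - u) (mainS h q b c 0 W 0 0 0 (root h q) 0 0 0)
      (hdr 5 h q b c (u + 1) (2 * W)) := rfl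

theorem nextM7 : nextM ok accS y γ = accS := rfl

theorem nextM8 : nextM ok rejS y γ = rejS := rfl

end nextM

theorem nx_eq (ok : ℕ → ℕ → ℕ → ℕ → ℕ) (w : List Bool) (x : Sta) (γ : ℕ) :
    (machM ok).nx w x γ = nextM ok x (codeB w[addrM x]?) γ := rfl

theorem ones_succ {w : List Bool} {s n : ℕ} (h1 : Ones w s n) (e : w[s + n]? = some true) :
    Ones w s (n + 1) := by
  intro i hi
  rcases Nat.lt_succ_iff_lt_or_eq.mp hi with h3 | h3
  · exact h1 i h3
  · rw [h3]
    exact e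

theorem ones_zero (w : List Bool) (s : ℕ) : Ones w s 0 := fun _ hi => absurd hi (Nat.not_lt_zero _)

theorem code_false {w : List Bool} {i : ℕ} (e : w[i]? = some false) : codeB w[i]? = 1 := by
  rw [e]; rfl

theorem code_true {w : List Bool} {i : ℕ} (e : w[i]? = some true) : codeB w[i]? = 2 := by
  rw [e]; rfl

theorem code_none {w : List Bool} {i : ℕ} (e : w[i]? = none) : codeB w[i]? = 0 := by
  rw [e]; rfl

section steps

variable {ok : ℕ → ℕ → ℕ → ℕ → ℕ} {w : List Bool} (γ : ℕ)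

theorem st0 (h : ℕ) (h1 : Ones w 0 h) :
    Inv ok w (nextM ok (hdr 0 h 0 0 0 0 0) (codeB w[h]?) γ) := by
  rw [nextM0]
  rcases e : w[h]? with _ | a
  · exact .rej
  · cases a
    · exact .m1 h 0 h1 e (ones_zero _ _)
    · exact .m0 (h + 1) (ones_succ h1 (by rw [Nat.zero_add]; exact e))

theorem st1 (h q : ℕ) (h1 : Ones w 0 h) (h2 : w[h]? = some false) (h3 : Ones w (h + 1) q) :
    Inv ok w (nextM ok (hdr 1 h q 0 0 0 0) (codeB w[h + 1 + q]?) γ) := by
  rw [nextM1]
  rcases e : w[h + 1 + q]? with _ | a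
  · exact .rej
  · cases a
    · exact .m2 h q 0 h1 h2 h3 e (ones_zero _ _)
    · exact .m1 h (q + 1) h1 h2 (ones_succ h3 e)

theorem st2 (h q b : ℕ) (h1 : Ones w 0 h) (h2 : w[h]? = some false) (h3 : Ones w (h + 1) q)
    (h4 : w[h + 1 + q]? = some false) (h5 : Ones w (h + q + 2) b) :
    Inv ok w (nextM ok (hdr 2 h q b 0 0 0) (codeB w[h + q + 2 + b]?) γ) := by
  rw [nextM2]
  rcases e : w[h + q + 2 + b]? with _ | a
  · exact .rej
  · cases a
    · exact .m3 h q b 0 ⟨h1, h2, h3, h4, h5, e, ones_zero _ _⟩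
    · exact .m2 h q (b + 1) h1 h2 h3 h4 (ones_succ h5 e)

theorem st3 (h q b c : ℕ) (h1 : P3 w h q b c) :
    Inv ok w (nextM ok (hdr 3 h q b c 0 0) (codeB w[h + q + b + 3 + c]?) γ) := by
  rw [nextM3]
  rcases e : w[h + q + b + 3 + c]? with _ | a
  · exact .rej
  · cases a
    · show Inv ok w (cif (h * q * b * le01 c b * ok h q b c) rejS (hdr 4 h q b c 0 1))
      by_cases hz : h * q * b * le01 c b * ok h q b c = 0
      · rw [hz, cif_z]
        exact .rej
      · rw [cif_n hz]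
        have h2 := left_ne_zero_of_mul hz
        have h3 := left_ne_zero_of_mul h2
        have h4 := left_ne_zero_of_mul h3
        have hle : c ≤ b := by
          by_contra hcb
          apply right_ne_zero_of_mul h2
          unfold le01
          rw [if_neg hcb]
        exact .m4 h q b c 0 ⟨h1, e, Nat.one_le_iff_ne_zero.mpr (left_ne_zero_of_mul h4),
          Nat.one_le_iff_ne_zero.mpr (right_ne_zero_of_mul h4),
          Nat.one_le_iff_ne_zero.mpr (right_ne_zero_of_mul h3), hle, right_ne_zero_of_mul hz⟩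
          (Nat.zero_le _) fun t ht => absurd ht (Nat.not_lt_zero t)
    · exact .m3 h q b (c + 1) ⟨h1.1, h1.2.1, h1.2.2.1, h1.2.2.2.1, h1.2.2.2.2.1, h1.2.2.2.2.2.1,
        ones_succ h1.2.2.2.2.2.2 e⟩

theorem st4 (h q b c u : ℕ) (h1 : Hd ok w h q b c) (hu : u ≤ h * q)
    (h2 : ∀ t < u, 2 ^ t < w.length) :
    Inv ok w (nextM ok (hdr 4 h q b c u (2 ^ u)) (codeB w[2 ^ u]?) γ) := by
  rw [nextM4]
  rcases e : w[2 ^ u]? with _ | a
  · exact .rej
  · have h5 : 2 ^ u < w.length := (List.getElem?_eq_some_iff.mp e).1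
    have hc : codeB (some a) ≠ 0 := by cases a <;> decide
    rw [cif_n hc]
    by_cases hz : h * q - u = 0
    · have h6 : u = h * q := by omega
      rw [hz, cif_z]
      have h7 : Inv ok w (hdr 5 h q b c 0 (2 ^ 0)) :=
        .m5 h q b c 0 ⟨h1, by rw [← h6]; exact h5⟩ (Nat.zero_le _)
      exact h7
    · rw [cif_n hz, show 2 * 2 ^ u = 2 ^ (u + 1) by rw [pow_succ, mul_comm]]
      refine .m4 h q b c (u + 1) h1 (by omega) fun t ht => ?_
      rcases Nat.lt_succ_iff_lt_or_eq.mp ht with h3 | h3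
      · exact h2 t h3
      · rw [h3]
        exact h5

theorem st5 (h q b c u y : ℕ) (h1 : Full ok w h q b c) (hu : u ≤ Et h q b c) :
    Inv ok w (nextM ok (hdr 5 h q b c u (2 ^ u)) y γ) := by
  rw [nextM5]
  by_cases hz : Et h q b c - u = 0
  · have h6 : u = Et h q b c := by omega
    rw [hz, cif_z, h6]
    have h0 : toF h b 0 0 = fun _ => (0, 0) := by
      funext j
      simp [toF, dig]
    refine .m6 h q b c 0 0 0 0 (root h q) 0 0 0 h1 (Nat.pow_pos (by norm_num)) (Nat.zero_le _)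
      (Nat.pow_pos (by norm_num)) ?_ ?_ (Nat.pow_pos (Nat.pow_pos (by norm_num)))
      (Nat.pow_pos (Nat.pow_pos (by norm_num))) ?_
    · rw [Nat.zero_min]
      rfl
    · rw [Nat.zero_sub]
      rfl
    · rw [h0]
      exact Ch.zero _
  · rw [cif_n hz, show 2 * 2 ^ u = 2 ^ (u + 1) by rw [pow_succ, mul_comm]]
    exact .m5 h q b c (u + 1) h1 (by omega)

end steps

/-- FI0. -/
theorem gFI0 : GoalFI0 := by
  intro ok w x γ hγ hx h6
  rw [nx_eq]
  cases hx with
  | rej => rw [nextM8]; exact .rej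
  | m0 h h1 => exact st0 γ h h1
  | m1 h q h1 h2 h3 => exact st1 γ h q h1 h2 h3
  | m2 h q b h1 h2 h3 h4 h5 => exact st2 γ h q b h1 h2 h3 h4 h5
  | m3 h q b c h1 => exact st3 γ h q b c h1
  | m4 h q b c u h1 hu h2 => exact st4 γ h q b c u h1 hu h2
  | m5 h q b c u h1 hu => exact st5 γ h q b c u _ h1 hu
  | m6 => exact absurd rfl h6
  | m7 h1 => rw [nextM7]; exact .m7 h1

end Pool.Agent.Helper12.CTR
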